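import Pool.Agent.Lib.MP_b1a3a4_al.MVS.Interfaces

/-!
# Project MVS (MP_b1a3a4_al): BASE (6.2)

The case `S = Π(S)`.
-/

set_option linter.all false

namespace Pool.Agent.Lib.MP_b1a3a4_al.MVS.H47

open Finsupp

/-- finite products of groups of type `FP_n` are of type `FP_n` -/
lemma fp_piS (fpgrp : FpgrpStatement) (fpfin : FpfinStatement) (k : Type) [CommRing k] (n : ℕ)
    (I : Type) [Fintype I] [DecidableEq I] (L : I → Type) [∀ i, Group (L i)] (U : Finset I)
    (S : Subgroup (∀ i, L i)) (hU : ∀ j ∈ U, FPn k (pr S j) n) : FPn k (piS U S) n := by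
  classical
  induction U using Finset.induction_on with
  | empty =>
    apply (fpfin k n).1
    have : Subsingleton (piS ∅ S) := ⟨fun a b => Subtype.ext (funext fun j => by
      rw [a.2.2 j (Finset.notMem_empty j), b.2.2 j (Finset.notMem_empty j)])⟩
    infer_instance
  | insert i V hi ih =>
    have ihV := ih (fun j hj => hU j (Finset.mem_insert_of_mem hj))
    have hle : piS V S ≤ piS (insert i V) S :=
      fun x hx => ⟨hx.1, fun l hl => hx.2 l (fun h => hl (Finset.mem_insert_of_mem h))⟩
    let jj : piS V S →* piS (insert i V) S := Subgroup.inclusion hle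
    let pp : piS (insert i V) S →* pr S i :=
      { toFun := fun x => ⟨x.1 i, x.2.1 i⟩
        map_one' := rfl
        map_mul' := fun _ _ => rfl }
    refine fpgrp k (piS V S) (piS (insert i V) S) (pr S i) jj pp ⟨?_, ?_, ?_⟩ n ihV
      (hU i (Finset.mem_insert_self i V))
    · exact Subgroup.inclusion_injective hle
    · rintro ⟨y, hy⟩
      refine ⟨⟨Pi.mulSingle i y, ⟨fun l => ?_, fun l hl => ?_⟩⟩, ?_⟩
      · rcases eq_or_ne l i with rfl | hne
        · rw [Pi.mulSingle_eq_same]
          exact hy
        · rw [Pi.mulSingle_eq_of_ne hne]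
          exact one_mem _
      · apply Pi.mulSingle_eq_of_ne
        rintro rfl
        exact hl (Finset.mem_insert_self l V)
      · apply Subtype.ext
        exact Pi.mulSingle_eq_same i y
    · intro x
      constructor
      · intro hx
        have h1 : x.1 i = 1 := congrArg Subtype.val hx
        refine ⟨⟨x.1, ⟨x.2.1, fun l hl => ?_⟩⟩, rfl⟩
        rcases eq_or_ne l i with rfl | hne
        · exact h1
        · apply x.2.2 l
          intro hmem
          rcases Finset.mem_insert.1 hmem with h | h
          · exact hne h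
          · exact hl h
      · rintro ⟨y, rfl⟩
        apply Subtype.ext
        exact y.2.2 i hi

/-- a character which vanishes on the factors vanishes -/
lemma chr_zero_of_factors (I : Type) [Fintype I] [DecidableEq I] (L : I → Type)
    [∀ i, Group (L i)] (U : Finset I) (S : Subgroup (∀ i, L i)) (hS : piS U S ≤ S) (χ : Chr S)
    (h0 : ∀ i ∈ U, ∀ (x : L i) (h : Pi.mulSingle i x ∈ S), val χ ⟨_, h⟩ = 0) (V : Finset I) :
    V ⊆ U → ∀ (x : ∀ i, L i) (hx : x ∈ S), (∀ j, j ∉ V → x j = 1) → val χ ⟨x, hx⟩ = 0 := by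
  classical
  induction V using Finset.induction_on with
  | empty =>
    intro _ x hx h1
    have : (⟨x, hx⟩ : S) = 1 := Subtype.ext (funext fun j => h1 j (Finset.notMem_empty j))
    rw [this, val_one]
  | insert i V hi ih =>
    intro hVU x hx h1
    have hiU : i ∈ U := hVU (Finset.mem_insert_self i V)
    have hmem : Pi.mulSingle i (x i) ∈ S := by
      apply hS
      refine ⟨fun l => ?_, fun l hl => ?_⟩
      · rcases eq_or_ne l i with rfl | hne
        · rw [Pi.mulSingle_eq_same]
          exact ⟨x, hx, rfl⟩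
        · rw [Pi.mulSingle_eq_of_ne hne]
          exact one_mem _
      · apply Pi.mulSingle_eq_of_ne
        rintro rfl
        exact hl hiU
    have hx' : (Pi.mulSingle i (x i))⁻¹ * x ∈ S := mul_mem (inv_mem hmem) hx
    have h2 : val χ ⟨_, hx'⟩ = 0 := by
      apply ih (fun l hl => hVU (Finset.mem_insert_of_mem hl))
      intro l hl
      rcases eq_or_ne l i with rfl | hne
      · rw [Pi.mul_apply, Pi.inv_apply, Pi.mulSingle_eq_same, inv_mul_cancel]
      · rw [Pi.mul_apply, Pi.inv_apply, Pi.mulSingle_eq_of_ne hne, inv_one, one_mul]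
        apply h1
        intro hmm
        rcases Finset.mem_insert.1 hmm with h | h
        · exact hne h
        · exact hl h
    have h3 : (⟨x, hx⟩ : S) = ⟨_, hmem⟩ * ⟨_, hx'⟩ := by
      apply Subtype.ext
      change x = Pi.mulSingle i (x i) * ((Pi.mulSingle i (x i))⁻¹ * x)
      rw [mul_inv_cancel_left]
    rw [h3, val_mul, h2, h0 i hiU, add_zero]

/-- BASE (6.2) -/
theorem base (fpgrp : FpgrpStatement) (fpfin : FpfinStatement) : BaseStatement := by
  intro k _ _ n hA I _ _ L _ U S hset hS
  constructor
  · have h1 : FPn k (piS U S) n := fp_piS fpgrp fpfin k n I L U S hset.a1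
    have h2 : S = piS U S :=
      le_antisymm (fun s hs => ⟨fun l => ⟨s, hs, rfl⟩, fun l hl => hset.supp s hs l hl⟩) hS
    have h3 : ∀ T T' : Subgroup (∀ i, L i), T = T' → FPn k T' n → FPn k T n := by
      rintro T T' rfl h
      exact h
    exact h3 _ _ h2 h1
  · intro χ hχ F hF
    apply hA I L U S hset χ hχ ?_ F hF
    by_contra hcon
    push Not at hcon
    obtain ⟨s, -, hs⟩ := hχ ∅ (Finset.empty_subset U) (Nat.zero_le _)
    apply hs
    exact chr_zero_of_factors I L U S hS χ hcon U (le_refl U) s.1 s.2
      (fun j hj => hset.supp s.1 s.2 j hj)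

end Pool.Agent.Lib.MP_b1a3a4_al.MVS.H47
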