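import Pool.Agent.Lib.MP_b1a3a4_al.MVS.Interfaces

/-!
# Project MVS (MP_b1a3a4_al): TRANSFER (3.1)

Comparison of the base changed resolutions of the kernel and of the middle group of a short exact
sequence.
-/

set_option linter.all false

namespace Pool.Agent.Lib.MP_b1a3a4_al.MVS.H47

open Finsupp

section one

variable {k K S Q R : Type} [CommRing k] [Group K] [Group S] [Group Q] [Ring R]
  {j : K →* S} {π : S →* Q} (h : SES j π)

/-- a section of `π` -/
noncomputable def sec (h : SES j π) (g : Q) : S := (h.surj g).choose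

include h

lemma π_sec (g : Q) : π (sec h g) = g := (h.surj g).choose_spec

lemma π_j (κ : K) : π (j κ) = 1 := (h.ex _).2 ⟨κ, rfl⟩

lemma exists_kap (s : S) : ∃ κ, j κ = s * (sec h (π s))⁻¹ :=
  (h.ex _).1 (by rw [map_mul, map_inv, π_sec h, mul_inv_cancel])

omit h in
/-- the `K`-part of `s` -/
noncomputable def kap (h : SES j π) (s : S) : K := (exists_kap h s).choose

lemma j_kap (s : S) : j (kap h s) = s * (sec h (π s))⁻¹ := (exists_kap h s).choose_spec

lemma kap_mul_sec (κ : K) (g : Q) : kap h (j κ * sec h g) = κ := by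
  apply h.inj
  rw [j_kap h, map_mul, π_j h, one_mul, π_sec h, mul_assoc, mul_inv_cancel, mul_one]

omit h in
/-- `kS^(X)` as a free `kK`-module -/
noncomputable def Phi (k : Type) [CommRing k] (h : SES j π) (X : Type) :
    ((Q × X) →₀ MonoidAlgebra k K) →+ (X →₀ MonoidAlgebra k S) :=
  Finsupp.liftAddHom (fun p => (Finsupp.singleAddHom p.2).comp
    ((AddMonoidHom.mulRight (MonoidAlgebra.single (sec h p.1) 1)).comp
      (gmap k j).toAddMonoidHom))

lemma Phi_single (X : Type) (p : Q × X) (a : MonoidAlgebra k K) :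
    Phi k h X (Finsupp.single p a) =
      Finsupp.single p.2 (gmap k j a * MonoidAlgebra.single (sec h p.1) 1) := by
  rw [Phi, Finsupp.liftAddHom_apply_single]
  rfl

omit h in
/-- the inverse of `Phi` -/
noncomputable def Psi (k : Type) [CommRing k] (h : SES j π) (X : Type) :
    (X →₀ MonoidAlgebra k S) →+ ((Q × X) →₀ MonoidAlgebra k K) :=
  Finsupp.liftAddHom (fun x => (Finsupp.liftAddHom (fun s : S =>
    (Finsupp.singleAddHom ((π s, x) : Q × X)).comp (MonoidAlgebra.singleAddHom (kap h s)))).comp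
      MonoidAlgebra.coeffAddEquiv.toAddMonoidHom)

lemma Psi_single (X : Type) (x : X) (s : S) (c : k) :
    Psi k h X (Finsupp.single x (MonoidAlgebra.single s c)) =
      Finsupp.single (π s, x) (MonoidAlgebra.single (kap h s) c) := by
  rw [Psi, Finsupp.liftAddHom_apply_single]
  change Finsupp.liftAddHom _ (Finsupp.single s c) = _
  rw [Finsupp.liftAddHom_apply_single]
  rfl

lemma Phi_Psi (X : Type) (v : X →₀ MonoidAlgebra k S) : Phi k h X (Psi k h X v) = v := by
  induction v using Finsupp.induction_linear with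
  | zero => simp
  | add v w hv hw => rw [map_add, map_add, hv, hw]
  | single x a =>
    induction a using MonoidAlgebra.induction_linear with
    | zero => simp
    | add f g hf hg => rw [Finsupp.single_add, map_add, map_add, hf, hg]
    | single s c =>
      rw [Psi_single, Phi_single]
      simp only [MonoidAlgebra.mapDomainRingHom_apply, MonoidAlgebra.mapDomain_single,
        MonoidAlgebra.single_mul_single, j_kap h, inv_mul_cancel_right, mul_one]

lemma Psi_Phi (X : Type) (v : (Q × X) →₀ MonoidAlgebra k K) : Psi k h X (Phi k h X v) = v := by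
  induction v using Finsupp.induction_linear with
  | zero => simp
  | add v w hv hw => rw [map_add, map_add, hv, hw]
  | single x a =>
    induction a using MonoidAlgebra.induction_linear with
    | zero => simp
    | add f g hf hg => rw [Finsupp.single_add, map_add, map_add, hf, hg]
    | single s c =>
      rw [Phi_single]
      simp only [MonoidAlgebra.mapDomainRingHom_apply, MonoidAlgebra.mapDomain_single,
        MonoidAlgebra.single_mul_single, mul_one]
      rw [Psi_single, kap_mul_sec h, map_mul, π_j h, one_mul, π_sec h]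

lemma Phi_smul (X : Type) (a : MonoidAlgebra k K) (v : (Q × X) →₀ MonoidAlgebra k K) :
    Phi k h X (a • v) = gmap k j a • Phi k h X v := by
  induction v using Finsupp.induction_linear with
  | zero => simp
  | add v w hv hw => rw [smul_add, map_add, map_add, smul_add, hv, hw]
  | single x b =>
    rw [Finsupp.smul_single, Phi_single, Phi_single, Finsupp.smul_single, smul_eq_mul,
      smul_eq_mul, map_mul, mul_assoc]

lemma Phi_inj (X : Type) : Function.Injective (Phi k h X) :=
  Function.LeftInverse.injective (Psi_Phi h X)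

lemma Psi_smul (X : Type) (a : MonoidAlgebra k K) (v : X →₀ MonoidAlgebra k S) :
    Psi k h X (gmap k j a • v) = a • Psi k h X v := by
  apply Phi_inj h X
  rw [Phi_Psi, Phi_smul, Phi_Psi]

omit h in
/-- a `kS`-linear map as a `kK`-linear map -/
noncomputable def cj (h : SES j π) {X Y : Type}
    (f : (X →₀ MonoidAlgebra k S) →ₗ[MonoidAlgebra k S] (Y →₀ MonoidAlgebra k S)) :
    ((Q × X) →₀ MonoidAlgebra k K) →ₗ[MonoidAlgebra k K] ((Q × Y) →₀ MonoidAlgebra k K) where
  toFun v := Psi k h Y (f (Phi k h X v))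
  map_add' v w := by rw [map_add, map_add, map_add]
  map_smul' a v := by rw [Phi_smul, map_smul, Psi_smul, RingHom.id_apply]

lemma Phi_cj {X Y : Type}
    (f : (X →₀ MonoidAlgebra k S) →ₗ[MonoidAlgebra k S] (Y →₀ MonoidAlgebra k S))
    (v : (Q × X) →₀ MonoidAlgebra k K) :
    Phi k h Y (cj h f v) = f (Phi k h X v) := Phi_Psi h Y _

omit h in
lemma aug_gmap (j : K →* S) (a : MonoidAlgebra k K) : aug k S (gmap k j a) = aug k K a := by
  induction a using MonoidAlgebra.induction_linear with
  | zero => simp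
  | add f g hf hg => rw [map_add, map_add, map_add, hf, hg]
  | single s c =>
    simp only [MonoidAlgebra.mapDomainRingHom_apply, MonoidAlgebra.mapDomain_single, aug_single]

omit h in
/-- the restricted augmentation -/
noncomputable def ers (h : SES j π) {X : Type}
    (e : (X →₀ MonoidAlgebra k S) →ₗ[MonoidAlgebra k S] Triv k S) :
    ((Q × X) →₀ MonoidAlgebra k K) →ₗ[MonoidAlgebra k K] Triv k K where
  toFun v := (show Triv k K from (show k from e (Phi k h X v)))
  map_add' v w := by rw [map_add, map_add]; rfl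
  map_smul' a v := by
    rw [Phi_smul, map_smul, triv_smul, aug_gmap]
    rfl

lemma ers_apply {X : Type} (e : (X →₀ MonoidAlgebra k S) →ₗ[MonoidAlgebra k S] Triv k S)
    (v : (Q × X) →₀ MonoidAlgebra k K) :
    (ers h e v : k) = (e (Phi k h X v) : k) := rfl

omit h in
/-- a resolution of `S` restricted to `K` -/
noncomputable def resF (h : SES j π) (F : GRes k S) : GRes k K where
  X := fun q => Q × F.X q
  d := fun q => cj h (F.d q)
  ε := ers h F.ε
  ε_surj := by
    intro a
    obtain ⟨z, hz⟩ := F.ε_surj (show Triv k S from (show k from a))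
    refine ⟨Psi k h _ z, ?_⟩
    change (F.ε (Phi k h _ (Psi k h _ z)) : k) = (a : k)
    rw [Phi_Psi]
    exact hz
  ex0 := by
    intro z
    constructor
    · intro hz
      have h1 : F.ε (Phi k h _ z) = 0 := hz
      obtain ⟨y, hy⟩ := (F.ex0 _).1 h1
      refine ⟨Psi k h _ y, ?_⟩
      apply Phi_inj h
      rw [Phi_cj, Phi_Psi, hy]
    · rintro ⟨y, rfl⟩
      change (F.ε (Phi k h _ (cj h (F.d 0) y)) : k) = (0 : k)
      rw [Phi_cj]
      exact F.ε_d _
  ex := by
    intro q z
    constructor
    · intro hz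
      have h1 : F.d q (Phi k h _ z) = 0 := by
        rw [← Phi_cj h, hz, map_zero]
      obtain ⟨y, hy⟩ := (F.ex q _).1 h1
      refine ⟨Psi k h _ y, ?_⟩
      apply Phi_inj h
      rw [Phi_cj, Phi_Psi, hy]
    · rintro ⟨y, rfl⟩
      apply Phi_inj h
      rw [Phi_cj, Phi_cj, map_zero]
      exact F.isCx q _

end one

section two

variable {k K S Q R : Type} [CommRing k] [Group K] [Group S] [Group Q] [Ring R]
  {j : K →* S} {π : S →* Q} (h : SES j π) (ι : MonoidAlgebra k S →+* R)

lemma ι_inv_mul (s : S) : ι (MonoidAlgebra.single s⁻¹ 1) * ι (MonoidAlgebra.single s 1) = 1 := by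
  rw [← map_mul, MonoidAlgebra.single_mul_single, inv_mul_cancel, one_mul,
    ← MonoidAlgebra.one_def, map_one]

lemma ι_mul_inv (s : S) : ι (MonoidAlgebra.single s 1) * ι (MonoidAlgebra.single s⁻¹ 1) = 1 := by
  rw [← map_mul, MonoidAlgebra.single_mul_single, mul_inv_cancel, one_mul,
    ← MonoidAlgebra.one_def, map_one]

/-- the comparison `R^(Q × X) → R[Q]^(X)` -/
noncomputable def Th (X : Type) : ((Q × X) →₀ R) →ₗ[R] (X →₀ MonoidAlgebra R Q) :=
  Finsupp.linearCombination R (fun p => Finsupp.single p.2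
    (MonoidAlgebra.single p.1 (ι (MonoidAlgebra.single (sec h p.1) 1))))

lemma Th_single (X : Type) (p : Q × X) (r : R) :
    Th h ι X (Finsupp.single p r) = Finsupp.single p.2
      (MonoidAlgebra.single p.1 (r * ι (MonoidAlgebra.single (sec h p.1) 1))) := by
  rw [Th, Finsupp.linearCombination_single, Finsupp.smul_single, MonoidAlgebra.smul_single,
    smul_eq_mul]

/-- the inverse of `Th` -/
noncomputable def Thi (X : Type) : (X →₀ MonoidAlgebra R Q) →+ ((Q × X) →₀ R) :=
  Finsupp.liftAddHom (fun x => (Finsupp.liftAddHom (fun g : Q =>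
    (Finsupp.singleAddHom ((g, x) : Q × X)).comp
      (AddMonoidHom.mulRight (ι (MonoidAlgebra.single (sec h g)⁻¹ 1))))).comp
      MonoidAlgebra.coeffAddEquiv.toAddMonoidHom)

lemma Thi_single (X : Type) (x : X) (g : Q) (r : R) :
    Thi h ι X (Finsupp.single x (MonoidAlgebra.single g r)) =
      Finsupp.single (g, x) (r * ι (MonoidAlgebra.single (sec h g)⁻¹ 1)) := by
  rw [Thi, Finsupp.liftAddHom_apply_single]
  change Finsupp.liftAddHom _ (Finsupp.single g r) = _
  rw [Finsupp.liftAddHom_apply_single]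
  rfl

lemma Th_Thi (X : Type) (v : X →₀ MonoidAlgebra R Q) : Th h ι X (Thi h ι X v) = v := by
  induction v using Finsupp.induction_linear with
  | zero => simp
  | add v w hv hw => rw [map_add, map_add, hv, hw]
  | single x a =>
    induction a using MonoidAlgebra.induction_linear with
    | zero => simp
    | add f g hf hg => rw [Finsupp.single_add, map_add, map_add, hf, hg]
    | single s c =>
      rw [Thi_single, Th_single, mul_assoc, ι_inv_mul, mul_one]

lemma Thi_Th (X : Type) (v : (Q × X) →₀ R) : Thi h ι X (Th h ι X v) = v := by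
  induction v using Finsupp.induction_linear with
  | zero => simp
  | add v w hv hw => rw [map_add, map_add, hv, hw]
  | single x a =>
    rw [Th_single, Thi_single, mul_assoc, ι_mul_inv, mul_one]

/-- the comparison as an equivalence -/
noncomputable def The (X : Type) : ((Q × X) →₀ R) ≃ₗ[R] (X →₀ MonoidAlgebra R Q) :=
  { Th h ι X with
    invFun := Thi h ι X
    left_inv := Thi_Th h ι X
    right_inv := Th_Thi h ι X }

lemma The_apply (X : Type) (v : (Q × X) →₀ R) : The h ι X v = Th h ι X v := rfl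

/-- the key identity -/
lemma The_mp (X : Type) (v : (Q × X) →₀ MonoidAlgebra k K) :
    The h ι X (mp (ι.comp (gmap k j)) v) = mp (delta ι π) (Phi k h X v) := by
  rw [The_apply]
  induction v using Finsupp.induction_linear with
  | zero => simp
  | add v w hv hw => rw [mp_add, map_add, map_add, mp_add, hv, hw]
  | single x a =>
    induction a using MonoidAlgebra.induction_linear with
    | zero => simp
    | add f g hf hg =>
      rw [Finsupp.single_add, mp_add, map_add, map_add, mp_add, hf, hg]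
    | single s c =>
      rw [mp_single, Th_single, Phi_single, mp_single]
      simp only [RingHom.comp_apply, MonoidAlgebra.mapDomainRingHom_apply,
        MonoidAlgebra.mapDomain_single]
      rw [← map_mul, MonoidAlgebra.single_mul_single, delta_single, map_mul, π_j h, one_mul,
        π_sec h]

/-- compatibility with base changed linear maps -/
lemma The_bc {X Y : Type}
    (f : (X →₀ MonoidAlgebra k S) →ₗ[MonoidAlgebra k S] (Y →₀ MonoidAlgebra k S))
    (w : (Q × X) →₀ R) :
    The h ι Y (bc (ι.comp (gmap k j)) (cj h f) w) = bc (delta ι π) f (The h ι X w) := by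
  have key : (The h ι Y).toLinearMap ∘ₗ bc (ι.comp (gmap k j)) (cj h f) =
      (bc (delta ι π) f).restrictScalars R ∘ₗ (The h ι X).toLinearMap := by
    apply lin_ext
    intro p
    change The h ι Y (bc (ι.comp (gmap k j)) (cj h f) (Finsupp.single p 1)) =
      bc (delta ι π) f (The h ι X (Finsupp.single p 1))
    have h1 : (Finsupp.single p 1 : (Q × X) →₀ R) =
        mp (ι.comp (gmap k j)) (Finsupp.single p 1) := by
      rw [mp_single, map_one]
    rw [h1, bc_mp, The_mp, The_mp, Phi_cj, bc_mp]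
  exact LinearMap.congr_fun key w

lemma The_lin {X Y : Type}
    (a : (Y →₀ MonoidAlgebra k K) →ₗ[MonoidAlgebra k K] ((Q × X) →₀ MonoidAlgebra k K))
    (z : Y →₀ R) :
    Finsupp.linearCombination R
        (fun y => mp (delta ι π) (Phi k h X (a (Finsupp.single y 1)))) z =
      The h ι X (bc (ι.comp (gmap k j)) a z) := by
  have key : Finsupp.linearCombination R
        (fun y => mp (delta ι π) (Phi k h X (a (Finsupp.single y 1)))) =
      (The h ι X).toLinearMap ∘ₗ (bc (ι.comp (gmap k j)) a) := by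
    apply lin_ext
    intro y
    rw [Finsupp.linearCombination_single, one_smul, ← The_mp, ← bc_mp, mp_single, map_one]
    rfl
  exact LinearMap.congr_fun key z

lemma Phi_lin {X Y : Type}
    (a : (Y →₀ MonoidAlgebra k K) →ₗ[MonoidAlgebra k K] ((Q × X) →₀ MonoidAlgebra k K))
    (z : Y →₀ MonoidAlgebra k K) :
    Finsupp.linearCombination (MonoidAlgebra k S)
        (fun y => Phi k h X (a (Finsupp.single y 1))) (mp (gmap k j) z) =
      Phi k h X (a z) := by
  induction z using Finsupp.induction_linear with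
  | zero => simp
  | add v w hv hw => rw [mp_add, map_add, map_add, map_add, hv, hw]
  | single x b =>
    rw [mp_single, Finsupp.linearCombination_single, ← Phi_smul, ← map_smul,
      Finsupp.smul_single, smul_eq_mul, mul_one]

end two

/-- the homotopy equivalence with the restricted resolution -/
lemma heq_res (heq : HeqStatement) {k K S Q : Type} [CommRing k] [Group K] [Group S] [Group Q]
    {j : K →* S} {π : S →* Q} (h : SES j π) (FK : GRes k K) (FS : GRes k S) :
    ∃ (al : ∀ q : ℕ, (FK.X q →₀ MonoidAlgebra k K) →ₗ[MonoidAlgebra k K]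
        ((Q × FS.X q) →₀ MonoidAlgebra k K))
      (be : ∀ q : ℕ, ((Q × FS.X q) →₀ MonoidAlgebra k K) →ₗ[MonoidAlgebra k K]
        (FK.X q →₀ MonoidAlgebra k K))
      (h1 : ∀ q : ℕ, (FK.X q →₀ MonoidAlgebra k K) →ₗ[MonoidAlgebra k K]
        (FK.X (q + 1) →₀ MonoidAlgebra k K))
      (h2 : ∀ q : ℕ, ((Q × FS.X q) →₀ MonoidAlgebra k K) →ₗ[MonoidAlgebra k K]
        ((Q × FS.X (q + 1)) →₀ MonoidAlgebra k K)),
      (∀ z, ers h FS.ε (al 0 z) = FK.ε z) ∧
      (∀ q z, cj h (FS.d q) (al (q + 1) z) = al q (FK.d q z)) ∧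
      (∀ q z, FK.d q (be (q + 1) z) = be q (cj h (FS.d q) z)) ∧
      (∀ z, z - be 0 (al 0 z) = FK.d 0 (h1 0 z)) ∧
      (∀ q z, z - be (q + 1) (al (q + 1) z) = FK.d (q + 1) (h1 (q + 1) z) + h1 q (FK.d q z)) ∧
      (∀ z, z - al 0 (be 0 z) = cj h (FS.d 0) (h2 0 z)) ∧
      (∀ q z, z - al (q + 1) (be (q + 1) z) =
        cj h (FS.d (q + 1)) (h2 (q + 1) z) + h2 q (cj h (FS.d q) z)) := by
  obtain ⟨al, be, h1, h2, e1, e2, c1, c2, m1, m2, m3, m4⟩ :=
    heq (MonoidAlgebra k K) (Triv k K) FK (resF h FS)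
  exact ⟨al, be, h1, h2, e1, c1, c2, m1, m2, m3, m4⟩

/-- TRANSFER (3.1) -/
theorem transfer (heq : HeqStatement) : TransferStatement := by
  intro k K S Q R _ _ _ _ _ j π h ι FK FS
  obtain ⟨al, be, h1, h2, e1, c1, c2, m1, m2, m3, m4⟩ := heq_res heq h FK FS
  -- base changed relations
  have C1 : ∀ q z, bc (ι.comp (gmap k j)) (cj h (FS.d q)) (bc (ι.comp (gmap k j)) (al (q + 1)) z) =
      bc (ι.comp (gmap k j)) (al q) (bc (ι.comp (gmap k j)) (FK.d q) z) := by
    intro q z
    have hh : cj h (FS.d q) ∘ₗ al (q + 1) = al q ∘ₗ FK.d q := LinearMap.ext (c1 q)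
    have h3 := congrArg (bc (ι.comp (gmap k j))) hh
    rw [bc_comp, bc_comp] at h3
    exact LinearMap.congr_fun h3 z
  have C2 : ∀ q z, bc (ι.comp (gmap k j)) (FK.d q) (bc (ι.comp (gmap k j)) (be (q + 1)) z) =
      bc (ι.comp (gmap k j)) (be q) (bc (ι.comp (gmap k j)) (cj h (FS.d q)) z) := by
    intro q z
    have hh : FK.d q ∘ₗ be (q + 1) = be q ∘ₗ cj h (FS.d q) := LinearMap.ext (c2 q)
    have h3 := congrArg (bc (ι.comp (gmap k j))) hh
    rw [bc_comp, bc_comp] at h3
    exact LinearMap.congr_fun h3 z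
  have M1 : ∀ z, z - bc (ι.comp (gmap k j)) (be 0) (bc (ι.comp (gmap k j)) (al 0) z) =
      bc (ι.comp (gmap k j)) (FK.d 0) (bc (ι.comp (gmap k j)) (h1 0) z) := by
    intro z
    have hh : LinearMap.id - be 0 ∘ₗ al 0 = FK.d 0 ∘ₗ h1 0 := LinearMap.ext m1
    have h3 := congrArg (bc (ι.comp (gmap k j))) hh
    rw [bc_sub, bc_id, bc_comp, bc_comp] at h3
    exact LinearMap.congr_fun h3 z
  have M2 : ∀ q z, z - bc (ι.comp (gmap k j)) (be (q + 1))
        (bc (ι.comp (gmap k j)) (al (q + 1)) z) =
      bc (ι.comp (gmap k j)) (FK.d (q + 1)) (bc (ι.comp (gmap k j)) (h1 (q + 1)) z) +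
      bc (ι.comp (gmap k j)) (h1 q) (bc (ι.comp (gmap k j)) (FK.d q) z) := by
    intro q z
    have hh : LinearMap.id - be (q + 1) ∘ₗ al (q + 1) =
        FK.d (q + 1) ∘ₗ h1 (q + 1) + h1 q ∘ₗ FK.d q := LinearMap.ext (m2 q)
    have h3 := congrArg (bc (ι.comp (gmap k j))) hh
    rw [bc_sub, bc_id, bc_comp, bc_add, bc_comp, bc_comp] at h3
    exact LinearMap.congr_fun h3 z
  have M3 : ∀ z, z - bc (ι.comp (gmap k j)) (al 0) (bc (ι.comp (gmap k j)) (be 0) z) =
      bc (ι.comp (gmap k j)) (cj h (FS.d 0)) (bc (ι.comp (gmap k j)) (h2 0) z) := by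
    intro z
    have hh : LinearMap.id - al 0 ∘ₗ be 0 = cj h (FS.d 0) ∘ₗ h2 0 := LinearMap.ext m3
    have h3 := congrArg (bc (ι.comp (gmap k j))) hh
    rw [bc_sub, bc_id, bc_comp, bc_comp] at h3
    exact LinearMap.congr_fun h3 z
  have M4 : ∀ q z, z - bc (ι.comp (gmap k j)) (al (q + 1))
        (bc (ι.comp (gmap k j)) (be (q + 1)) z) =
      bc (ι.comp (gmap k j)) (cj h (FS.d (q + 1))) (bc (ι.comp (gmap k j)) (h2 (q + 1)) z) +
      bc (ι.comp (gmap k j)) (h2 q) (bc (ι.comp (gmap k j)) (cj h (FS.d q)) z) := by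
    intro q z
    have hh : LinearMap.id - al (q + 1) ∘ₗ be (q + 1) =
        cj h (FS.d (q + 1)) ∘ₗ h2 (q + 1) + h2 q ∘ₗ cj h (FS.d q) := LinearMap.ext (m4 q)
    have h3 := congrArg (bc (ι.comp (gmap k j))) hh
    rw [bc_sub, bc_id, bc_comp, bc_add, bc_comp, bc_comp] at h3
    exact LinearMap.congr_fun h3 z
  refine ⟨fun q y => Phi k h _ (al q (Finsupp.single y 1)),
    fun q => bc (ι.comp (gmap k j)) (be q) ∘ₗ (The h ι (FS.X q)).symm.toLinearMap,
    ?_, ?_, ?_, ?_, ?_, ?_⟩
  · intro y
    exact e1 (Finsupp.single y 1)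
  · intro q y
    rw [Phi_lin h (al q), ← Phi_cj h]
    exact congrArg _ (c1 q _)
  · intro q z
    rw [The_lin h ι (al (q + 1)), The_lin h ι (al q)]
    change bc (delta ι π) (FS.d q) _ = _
    rw [← The_bc]
    exact congrArg _ (C1 q z)
  · intro q z
    obtain ⟨w, rfl⟩ := (The h ι (FS.X (q + 1))).surjective z
    change bc (ι.comp (gmap k j)) (FK.d q) (bc (ι.comp (gmap k j)) (be (q + 1))
      ((The h ι (FS.X (q + 1))).symm (The h ι (FS.X (q + 1)) w))) =
      bc (ι.comp (gmap k j)) (be q) ((The h ι (FS.X q)).symm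
        (bc (delta ι π) (FS.d q) (The h ι (FS.X (q + 1)) w)))
    rw [← The_bc, LinearEquiv.symm_apply_apply, LinearEquiv.symm_apply_apply]
    exact C2 q w
  · intro q z hz
    rw [The_lin h ι (al q)]
    obtain ⟨w, rfl⟩ := (The h ι (FS.X q)).surjective z
    refine ⟨The h ι (FS.X (q + 1)) (bc (ι.comp (gmap k j)) (h2 q) w), ?_⟩
    change bc (delta ι π) (FS.d q) _ = The h ι (FS.X q) w - The h ι (FS.X q)
      (bc (ι.comp (gmap k j)) (al q) (bc (ι.comp (gmap k j)) (be q)
        ((The h ι (FS.X q)).symm (The h ι (FS.X q) w))))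
    rw [← The_bc, LinearEquiv.symm_apply_apply, ← map_sub]
    congr 1
    match q, w, hz with
    | 0, w, hz => exact (M3 w).symm
    | q + 1, w, hz =>
      have h5 : bc (ι.comp (gmap k j)) (cj h (FS.d q)) w = 0 := by
        apply (The h ι (FS.X q)).injective
        rw [The_bc, map_zero]
        exact hz
      have h6 := M4 q w
      rw [h5, map_zero, add_zero] at h6
      exact h6.symm
  · intro q e he
    rw [The_lin h ι (al q)]
    refine ⟨bc (ι.comp (gmap k j)) (h1 q) e, ?_⟩
    change bc (ι.comp (gmap k j)) (FK.d q) _ = e - bc (ι.comp (gmap k j)) (be q)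
      ((The h ι (FS.X q)).symm (The h ι (FS.X q) (bc (ι.comp (gmap k j)) (al q) e)))
    rw [LinearEquiv.symm_apply_apply]
    match q, e, he with
    | 0, e, he => exact (M1 e).symm
    | q + 1, e, he =>
      have h5 : bc (ι.comp (gmap k j)) (FK.d q) e = 0 := he
      have h6 := M2 q e
      rw [h5, map_zero, add_zero] at h6
      exact h6.symm

end Pool.Agent.Lib.MP_b1a3a4_al.MVS.H47
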